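import Pool.Agent.helper3.FT.AlgDefs

set_option autoImplicit false

namespace Pool.Agent.helper3.FT

open Finset NumberField Pool.Agent.helper47.RA

variable {K : Type} [Field K] [NumberField K]

namespace QF

variable (Q : QF K)

theorem t_sq : Q.t ^ 2 = Q.t := by
  rcases Q.ht with h | h <;> rw [h] <;> rfl

theorem D_ne_zero : Q.D ≠ 0 := by
  intro h
  have := Q.hD.not_sq 0
  rw [h] at this
  simp at this

theorem int_inj {c d : ℤ} (h : (c : 𝓞 K) = d) : c = d := by exact_mod_cast h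

theorem delta_sq : (2 * Q.ω - Q.t) ^ 2 = (Q.D : 𝓞 K) := by
  have h1 : (Q.D : 𝓞 K) = Q.t + 4 * Q.k := by
    rw [Q.hk]; push_cast; ring
  have h2 : (Q.t : 𝓞 K) ^ 2 = Q.t := by exact_mod_cast Q.t_sq
  rw [h1]
  linear_combination 4 * Q.hω + h2

theorem delta_ne_zero : (2 * Q.ω - Q.t : 𝓞 K) ≠ 0 := by
  intro h
  have h1 := Q.delta_sq
  rw [h] at h1
  have h2 : ((0 : ℤ) : 𝓞 K) = (Q.D : 𝓞 K) := by rw [← h1]; simp
  exact Q.D_ne_zero (int_inj h2).symm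

theorem cj_int (c : ℤ) : Q.cj (c : 𝓞 K) = c := map_intCast Q.cj c

theorem cj_form (x y : ℤ) : Q.cj (x + y * Q.ω) = ((x + y * Q.t : ℤ) : 𝓞 K) + ((-y : ℤ) : 𝓞 K) * Q.ω := by
  rw [map_add, map_mul, Q.cj_int, Q.cj_int, Q.cj_ω]
  push_cast
  ring

theorem lin {x y x' y' : ℤ} (h : (x : 𝓞 K) + y * Q.ω = x' + y' * Q.ω) : x = x' ∧ y = y' := by
  have h2 := congrArg Q.cj h
  rw [Q.cj_form, Q.cj_form] at h2
  push_cast at h2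
  have h3 : ((y - y' : ℤ) : 𝓞 K) * (2 * Q.ω - Q.t) = 0 := by
    push_cast
    linear_combination h - h2
  rcases mul_eq_zero.mp h3 with h4 | h4
  · have h5 : y - y' = 0 := by exact_mod_cast h4
    have h6 : y = y' := by omega
    subst h6
    have h7 : (x : 𝓞 K) = x' := by linear_combination h
    exact ⟨int_inj h7, rfl⟩
  · exact absurd h4 Q.delta_ne_zero

theorem exists_re (a : 𝓞 K) : ∃ x : ℤ, a = x + Q.Y a * Q.ω :=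
  ⟨_, (Q.hspan a).choose_spec.choose_spec⟩

theorem Y_spec (x y : ℤ) : Q.Y (x + y * Q.ω) = y := by
  obtain ⟨x0, hx0⟩ := Q.exists_re (x + y * Q.ω)
  exact (Q.lin hx0).2.symm

theorem Y_eq {a : 𝓞 K} {x y : ℤ} (h : a = x + y * Q.ω) : Q.Y a = y := by rw [h, Q.Y_spec]

theorem Y_add (a b : 𝓞 K) : Q.Y (a + b) = Q.Y a + Q.Y b := by
  obtain ⟨x, hx⟩ := Q.exists_re a
  obtain ⟨y, hy⟩ := Q.exists_re b
  apply Q.Y_eq (x := x + y)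
  push_cast
  linear_combination hx + hy

theorem Y_sub (a b : 𝓞 K) : Q.Y (a - b) = Q.Y a - Q.Y b := by
  obtain ⟨x, hx⟩ := Q.exists_re a
  obtain ⟨y, hy⟩ := Q.exists_re b
  apply Q.Y_eq (x := x - y)
  push_cast
  linear_combination hx - hy

theorem Y_int (c : ℤ) : Q.Y (c : 𝓞 K) = 0 := by
  apply Q.Y_eq (x := c)
  simp

theorem Y_int_mul (c : ℤ) (a : 𝓞 K) : Q.Y (c * a) = c * Q.Y a := by
  obtain ⟨x, hx⟩ := Q.exists_re a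
  apply Q.Y_eq (x := c * x)
  push_cast
  linear_combination (c : 𝓞 K) * hx

theorem Y_cj (a : 𝓞 K) : Q.Y (Q.cj a) = - Q.Y a := by
  obtain ⟨x, hx⟩ := Q.exists_re a
  apply Q.Y_eq (x := x + Q.Y a * Q.t)
  conv_lhs => rw [hx]
  rw [Q.cj_form]

theorem cj_cj (a : 𝓞 K) : Q.cj (Q.cj a) = a := by
  obtain ⟨x, hx⟩ := Q.exists_re a
  generalize Q.Y a = y at hx
  rw [hx, Q.cj_form, Q.cj_form]
  push_cast
  ring

theorem sub_cj (a : 𝓞 K) : a - Q.cj a = Q.Y a * (2 * Q.ω - Q.t) := by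
  obtain ⟨x, hx⟩ := Q.exists_re a
  generalize Q.Y a = y at hx ⊢
  rw [hx, Q.cj_form]
  push_cast
  ring

/-- the norm form -/
theorem norm_form (x y : ℤ) : (x + y * Q.ω) * Q.cj (x + y * Q.ω) =
    ((x ^ 2 + Q.t * x * y - Q.k * y ^ 2 : ℤ) : 𝓞 K) := by
  rw [Q.cj_form]
  push_cast
  linear_combination (-(y : 𝓞 K) ^ 2) * Q.hω

theorem absNorm_eq (a : 𝓞 K) (N : ℤ) (h : a * Q.cj a = N) :
    (Ideal.absNorm (Ideal.span {a}) : ℤ) = |N| := by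
  have h1 := Q.hnorm a
  rw [← Q.v₁_cj a, ← Q.v₁_mul, h, Q.v₁_int] at h1
  exact_mod_cast h1

theorem exists_norm (a : 𝓞 K) : ∃ N : ℤ, a * Q.cj a = N ∧
    (Ideal.absNorm (Ideal.span {a}) : ℤ) = |N| := by
  obtain ⟨x, hx⟩ := Q.exists_re a
  generalize Q.Y a = y at hx
  have h : a * Q.cj a = ((x ^ 2 + Q.t * x * y - Q.k * y ^ 2 : ℤ) : 𝓞 K) := by
    rw [hx, Q.norm_form]
  exact ⟨_, h, Q.absNorm_eq a _ h⟩

theorem exists_trace (a : 𝓞 K) : ∃ e : ℤ, a + Q.cj a = e ∧ |(e : ℝ)| ≤ Q.v₁ a + Q.v₂ a := by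
  obtain ⟨x, hx⟩ := Q.exists_re a
  generalize Q.Y a = y at hx
  have h : a + Q.cj a = ((2 * x + Q.t * y : ℤ) : 𝓞 K) := by
    rw [hx, Q.cj_form]
    push_cast
    ring
  refine ⟨_, h, ?_⟩
  rw [← Q.v₁_int, ← h, ← Q.v₁_cj a]
  exact Q.v₁_add _ _

theorem v₁_neg (a : 𝓞 K) : Q.v₁ (-a) = Q.v₁ a := by
  have h : -a = ((-1 : ℤ) : 𝓞 K) * a := by push_cast; ring
  rw [h, Q.v₁_mul, Q.v₁_int]
  simp

theorem v₁_delta : Q.v₁ (2 * Q.ω - Q.t) = √|(Q.D : ℝ)| := by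
  have h : Q.v₁ (2 * Q.ω - Q.t) ^ 2 = |(Q.D : ℝ)| := by
    rw [sq, ← Q.v₁_mul, ← sq, Q.delta_sq, Q.v₁_int]
  rw [← h, Real.sqrt_sq (Q.v₁_nonneg _)]

theorem Y_bound (a : 𝓞 K) : |(Q.Y a : ℝ)| * √|(Q.D : ℝ)| ≤ Q.v₁ a + Q.v₂ a := by
  rw [← Q.v₁_delta, ← Q.v₁_int, ← Q.v₁_mul, ← Q.sub_cj, sub_eq_add_neg, ← Q.v₁_cj a, ← Q.v₁_neg (Q.cj a)]
  exact Q.v₁_add _ _

theorem Y_eq_zero_iff (a : 𝓞 K) : Q.Y a = 0 ↔ ∃ c : ℤ, a = c := by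
  constructor
  · intro h
    obtain ⟨x, hx⟩ := Q.exists_re a
    rw [h] at hx
    exact ⟨x, by rw [hx]; simp⟩
  · rintro ⟨c, rfl⟩
    exact Q.Y_int c

/-- the key identity -/
theorem Y_mul_Y (x w : 𝓞 K) (Nx Nw : ℤ) (hx : x * Q.cj x = Nx) (hw : w * Q.cj w = Nw) :
    Q.Y (x * w) * Q.Y (x * Q.cj w) = Nw * Q.Y x ^ 2 - Nx * Q.Y w ^ 2 := by
  obtain ⟨x1, hx1⟩ := Q.exists_re x
  obtain ⟨w1, hw1⟩ := Q.exists_re w
  generalize Q.Y x = x2 at hx1 ⊢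
  generalize Q.Y w = w2 at hw1 ⊢
  have e1 : Nx = x1 ^ 2 + Q.t * x1 * x2 - Q.k * x2 ^ 2 := by
    rw [hx1, Q.norm_form] at hx
    exact (int_inj hx).symm
  have e2 : Nw = w1 ^ 2 + Q.t * w1 * w2 - Q.k * w2 ^ 2 := by
    rw [hw1, Q.norm_form] at hw
    exact (int_inj hw).symm
  have e3 : Q.Y (x * w) = x1 * w2 + x2 * w1 + Q.t * x2 * w2 := by
    apply Q.Y_eq (x := x1 * w1 + Q.k * x2 * w2)
    rw [hx1, hw1]
    push_cast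
    linear_combination (x2 : 𝓞 K) * w2 * Q.hω
  have e4 : Q.Y (x * Q.cj w) = x2 * w1 - x1 * w2 := by
    apply Q.Y_eq (x := x1 * w1 + Q.t * x1 * w2 - Q.k * x2 * w2)
    rw [hx1, hw1, Q.cj_form]
    push_cast
    linear_combination (-(x2 : 𝓞 K) * w2) * Q.hω
  rw [e1, e2, e3, e4]
  ring

theorem int_dvd_iff (c : ℤ) (hc : c ≠ 0) (x y : ℤ) :
    (c : 𝓞 K) ∣ x + y * Q.ω ↔ c ∣ x ∧ c ∣ y := by
  constructor
  · rintro ⟨b, hb⟩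
    obtain ⟨b1, hb1⟩ := Q.exists_re b
    generalize Q.Y b = b2 at hb1
    rw [hb1] at hb
    have h : (x : 𝓞 K) + y * Q.ω = ((c * b1 : ℤ) : 𝓞 K) + ((c * b2 : ℤ) : 𝓞 K) * Q.ω := by
      rw [hb]; push_cast; ring
    obtain ⟨h1, h2⟩ := Q.lin h
    exact ⟨⟨b1, h1⟩, ⟨b2, h2⟩⟩
  · rintro ⟨⟨a, rfl⟩, ⟨b, rfl⟩⟩
    refine ⟨a + b * Q.ω, ?_⟩
    push_cast
    ring

/-- `q ∣ Y x`, `q ∣ N x` imply `q ∣ x` -/
theorem dvd_of_dvd (q : ℕ) (hq : q.Prime) (x : 𝓞 K) (N : ℤ) (hN : x * Q.cj x = N)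
    (h1 : (q : ℤ) ∣ Q.Y x) (h2 : (q : ℤ) ∣ N) : (q : 𝓞 K) ∣ x := by
  obtain ⟨x1, hx1⟩ := Q.exists_re x
  generalize Q.Y x = x2 at hx1 h1
  have e1 : N = x1 ^ 2 + Q.t * x1 * x2 - Q.k * x2 ^ 2 := by
    rw [hx1, Q.norm_form] at hN
    exact (int_inj hN).symm
  have h3 : (q : ℤ) ∣ x1 ^ 2 := by
    have e : x1 ^ 2 = N - (Q.t * x1 - Q.k * x2) * x2 := by rw [e1]; ring
    rw [e]
    exact dvd_sub h2 (dvd_mul_of_dvd_right h1 _)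
  have h4 : (q : ℤ) ∣ x1 := (Nat.prime_iff_prime_int.mp hq).dvd_of_dvd_pow h3
  have h5 := (Q.int_dvd_iff (q : ℤ) (by exact_mod_cast hq.ne_zero) x1 x2).mpr ⟨h4, h1⟩
  rw [hx1]
  simpa using h5

end QF

end Pool.Agent.helper3.FT
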