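import Pool.Agent.helper61.FT.A1

set_option autoImplicit false

namespace Pool.Agent.helper3.FT

open Finset NumberField Pool.Agent.helper47.RA

variable {K : Type} [Field K] [NumberField K] {Q : QF K}

theorem A3_cast_ne {c : ℤ} (hc : c ≠ 0) : (c : 𝓞 K) ≠ 0 := by exact_mod_cast hc

theorem A3_Y_delta (a : 𝓞 K) : (Q.Y (a * (2 * Q.ω - Q.t)) : 𝓞 K) = a + Q.cj a := by
  have h1 := Q.sub_cj (a * (2 * Q.ω - Q.t))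
  have h2 : Q.cj (2 * Q.ω - Q.t) = -(2 * Q.ω - Q.t) := by
    rw [map_sub, map_mul, Q.cj_ω, Q.cj_int]
    have : Q.cj (2 : 𝓞 K) = 2 := by have := Q.cj_int 2; push_cast at this; exact this
    rw [this]
    ring
  rw [map_mul, h2] at h1
  have h3 : ((Q.Y (a * (2 * Q.ω - Q.t)) : 𝓞 K) - (a + Q.cj a)) * (2 * Q.ω - Q.t) = 0 := by
    linear_combination -h1
  rcases mul_eq_zero.mp h3 with h4 | h4
  · linear_combination h4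
  · exact absurd h4 Q.delta_ne_zero

theorem Full.R1 (F : Full Q) :
    Q.Y F.u * Q.Y F.v = F.Λ * (Q.Y F.β) ^ 2 - F.Z * (Q.Y F.γ) ^ 2 := by
  have h := Q.Y_mul_Y F.β F.γ (F.Z ^ 2 * F.Λ) (F.Z * F.Λ ^ 2)
    (by rw [F.nβ]; push_cast; ring) (by rw [F.nγ]; push_cast; ring)
  rw [F.e1, F.e2, Q.Y_int_mul, Q.Y_int_mul] at h
  have h1 : F.Z * F.Λ ≠ 0 := mul_ne_zero F.hZ F.hΛ
  apply mul_left_cancel₀ h1
  linear_combination h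

theorem Full.uβ (F : Full Q) : F.u * F.β = F.Λ * F.α := by
  apply mul_left_cancel₀ (A3_cast_ne (K := K) F.hΛ)
  linear_combination (-F.β) * F.e1 + F.e3

theorem Full.uβ' (F : Full Q) : F.u * Q.cj F.β = (F.Z ^ 2 : ℤ) * Q.cj F.γ := by
  apply mul_left_cancel₀ (A3_cast_ne (K := K) F.hΛ)
  push_cast
  linear_combination (-Q.cj F.β) * F.e1 + Q.cj F.γ * F.nβ

theorem Full.cj_e1 (F : Full Q) : Q.cj F.β * F.γ = F.Λ * Q.cj F.u := by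
  have h := congrArg Q.cj F.e1
  rw [map_mul, map_mul, Q.cj_cj, Q.cj_int] at h
  exact h

theorem Full.cj_e2 (F : Full Q) : Q.cj F.β * Q.cj F.γ = F.Z * Q.cj F.v := by
  have h := congrArg Q.cj F.e2
  rw [map_mul, map_mul, Q.cj_int] at h
  exact h

theorem Full.nu (F : Full Q) : F.u * Q.cj F.u = (F.Z ^ 3 * F.Λ : ℤ) := by
  apply mul_left_cancel₀ (pow_ne_zero 2 (A3_cast_ne (K := K) F.hΛ))
  push_cast
  have h1 := F.e1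
  have h2 := F.cj_e1
  have h3 := F.nβ
  have h4 := F.nγ
  linear_combination (-(F.Λ : 𝓞 K) * Q.cj F.u) * h1 - F.β * Q.cj F.γ * h2 + F.γ * Q.cj F.γ * h3 +
    (F.Z : 𝓞 K) ^ 2 * F.Λ * h4

theorem Full.vγ (F : Full Q) : F.v * F.γ = F.Z * F.α' := by
  apply mul_left_cancel₀ (A3_cast_ne (K := K) F.hZ)
  linear_combination (-F.γ) * F.e2 + F.e4

theorem Full.vγ' (F : Full Q) : F.v * Q.cj F.γ = (F.Λ ^ 2 : ℤ) * F.β := by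
  apply mul_left_cancel₀ (A3_cast_ne (K := K) F.hZ)
  push_cast
  linear_combination (-Q.cj F.γ) * F.e2 + F.β * F.nγ

theorem Full.nv (F : Full Q) : F.v * Q.cj F.v = (F.Z * F.Λ ^ 3 : ℤ) := by
  apply mul_left_cancel₀ (pow_ne_zero 2 (A3_cast_ne (K := K) F.hZ))
  push_cast
  have h1 := F.e2
  have h2 := F.cj_e2
  have h3 := F.nβ
  have h4 := F.nγ
  linear_combination (-(F.Z : 𝓞 K) * Q.cj F.v) * h1 - F.β * F.γ * h2 + F.γ * Q.cj F.γ * h3 +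
    (F.Z : 𝓞 K) ^ 2 * F.Λ * h4

theorem Full.R2 (F : Full Q) :
    - (Q.Y F.γ * Q.Y F.α) = (Q.Y F.u) ^ 2 - F.Z * (Q.Y F.β) ^ 2 := by
  have h := Q.Y_mul_Y F.u F.β (F.Z ^ 3 * F.Λ) (F.Z ^ 2 * F.Λ) F.nu (by rw [F.nβ]; push_cast; ring)
  rw [F.uβ, F.uβ', Q.Y_int_mul, Q.Y_int_mul, Q.Y_cj] at h
  have h1 : F.Z ^ 2 * F.Λ ≠ 0 := mul_ne_zero (pow_ne_zero 2 F.hZ) F.hΛ
  apply mul_left_cancel₀ h1
  linear_combination h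

theorem Full.R3 (F : Full Q) :
    Q.Y F.β * Q.Y F.α' = (Q.Y F.v) ^ 2 - F.Λ * (Q.Y F.γ) ^ 2 := by
  have h := Q.Y_mul_Y F.v F.γ (F.Z * F.Λ ^ 3) (F.Z * F.Λ ^ 2) F.nv (by rw [F.nγ]; push_cast; ring)
  rw [F.vγ, F.vγ', Q.Y_int_mul, Q.Y_int_mul] at h
  have h1 : F.Z * F.Λ ^ 2 ≠ 0 := mul_ne_zero F.hZ (pow_ne_zero 2 F.hΛ)
  apply mul_left_cancel₀ h1
  linear_combination h

theorem Full.trβ (F : Full Q) : (Q.Y F.γ : 𝓞 K) * (F.β + Q.cj F.β) =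
    ((F.Z * Q.Y F.v - F.Λ * Q.Y F.u : ℤ) : 𝓞 K) := by
  have h1 : (F.Z : 𝓞 K) * F.v - F.Λ * F.u = Q.Y F.γ * (F.β * (2 * Q.ω - Q.t)) := by
    rw [← F.e1, ← F.e2]
    linear_combination F.β * Q.sub_cj F.γ
  have h2 := congrArg Q.Y h1
  rw [Q.Y_sub, Q.Y_int_mul, Q.Y_int_mul, Q.Y_int_mul] at h2
  rw [h2]
  push_cast
  rw [A3_Y_delta]

theorem Full.trγ (F : Full Q) : (Q.Y F.β : 𝓞 K) * (F.γ + Q.cj F.γ) =
    ((F.Z * Q.Y F.v + F.Λ * Q.Y F.u : ℤ) : 𝓞 K) := by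
  have h1 : (F.Z : 𝓞 K) * F.v - F.Λ * Q.cj F.u = Q.Y F.β * (F.γ * (2 * Q.ω - Q.t)) := by
    rw [← F.cj_e1, ← F.e2]
    linear_combination F.γ * Q.sub_cj F.β
  have h2 := congrArg Q.Y h1
  rw [Q.Y_sub, Q.Y_int_mul, Q.Y_int_mul, Q.Y_int_mul, Q.Y_cj] at h2
  have h3 : F.Z * Q.Y F.v + F.Λ * Q.Y F.u = Q.Y F.β * Q.Y (F.γ * (2 * Q.ω - Q.t)) := by
    linear_combination h2
  rw [h3]
  push_cast
  rw [A3_Y_delta]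

theorem Full.R4 (F : Full Q) : Q.D * (Q.Y F.β * Q.Y F.γ) ^ 2 =
    (F.Z * Q.Y F.v - F.Λ * Q.Y F.u) ^ 2 - 4 * F.Z ^ 2 * F.Λ * (Q.Y F.γ) ^ 2 := by
  have h1 := F.trβ
  have h2 := Q.sub_cj F.β
  have h3 := Q.delta_sq
  have h4 := F.nβ
  apply QF.int_inj (K := K)
  have h5 : ((F.Z * Q.Y F.v - F.Λ * Q.Y F.u : ℤ) : 𝓞 K) ^ 2 =
      (Q.Y F.γ : 𝓞 K) ^ 2 * (F.β + Q.cj F.β) ^ 2 := by
    rw [← h1]; ring
  have h6 : (F.β - Q.cj F.β) ^ 2 = (Q.Y F.β : 𝓞 K) ^ 2 * Q.D := by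
    rw [h2, mul_pow, h3]
  push_cast at h5 ⊢
  linear_combination (-1 : 𝓞 K) * h5 - (Q.Y F.γ : 𝓞 K) ^ 2 * h6 - 4 * (Q.Y F.γ : 𝓞 K) ^ 2 * h4

end Pool.Agent.helper3.FT
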