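import Pool.Agent.helper88.FT.DualMap

set_option autoImplicit false

namespace Pool.Agent.helper3.FT

open Finset

theorem N_mem_pairs {N K y : ℕ} {p : ℕ × ℕ} (h : p ∈ pairs N K y) :
    1 ≤ p.1 ∧ p.1 ≤ N ∧ 1 ≤ p.2 ∧ p.2 ≤ K ∧ N < 2 * p.1 ∧ K < 2 * p.2 ∧ Nat.Coprime p.1 p.2 := by
  unfold pairs at h
  rw [Finset.mem_filter, Finset.mem_product, Finset.mem_Icc, Finset.mem_Icc] at h
  obtain ⟨⟨⟨a, b⟩, c, d⟩, e, f, g, -⟩ := h
  exact ⟨a, b, c, d, e, f, g⟩

theorem near_sum (Q N K M G d P y : ℕ) (hK : 1 ≤ K) (hKN : K ≤ N)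
    (hMG : M * G = 4 * Q * N ^ 2) (hM : N ^ 2 ≤ M) (hMQ : M ≤ Q) (hd : 1 ≤ d) (hP : 1 ≤ P)
    (r : ℕ × ℕ → ℤ × ℤ × ℤ)
    (hr : ∀ p : ℕ × ℕ, 1 ≤ p.1 → 1 ≤ p.2 → Nat.Coprime p.1 p.2 →
      Res p.1 p.2 (r p).1 (r p).2.1 (r p).2.2) :
    ∑ h ∈ (Ico P (2 * P)).filter (fun h => 128 * Q * (d * h) ≤ N ^ 3 * K),
      ∑ p ∈ (pairs N K y).filter (fun p => Nat.Coprime h (5 * (p.1 * p.2))),
        (nearPts M G ((d * h : ℕ) * (r p).1 / ((p.1 : ℝ) ^ 3 * p.2))
          ((d * h : ℕ) * (r p).2.1 / ((p.1 : ℝ) ^ 3 * p.2))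
          ((d * h : ℕ) * (r p).2.2 / ((p.1 : ℝ) ^ 3 * p.2))).card ≤
      P * (pairs N K y).card + (dualSet N K y P).card := by
  classical
  have key : ∀ h ∈ (Ico P (2 * P)).filter (fun h => 128 * Q * (d * h) ≤ N ^ 3 * K),
      ∀ p ∈ (pairs N K y).filter (fun p => Nat.Coprime h (5 * (p.1 * p.2))),
        (nearPts M G ((d * h : ℕ) * (r p).1 / ((p.1 : ℝ) ^ 3 * p.2))
          ((d * h : ℕ) * (r p).2.1 / ((p.1 : ℝ) ^ 3 * p.2))
          ((d * h : ℕ) * (r p).2.2 / ((p.1 : ℝ) ^ 3 * p.2))).card ≤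
        1 + ((dualSet N K y P).filter (fun t => (t.1, t.2.1) = (h, p))).card := by
    intro h hh p hp
    obtain ⟨hh1, hh2⟩ := Finset.mem_filter.mp hh
    obtain ⟨hp1, hp2⟩ := Finset.mem_filter.mp hp
    obtain ⟨a1, a2, a3, a4, a5, a6, a7⟩ := N_mem_pairs hp1
    have hpos : 1 ≤ h := by
      have := (Finset.mem_Ico.mp hh1).1
      omega
    set S := nearPts M G ((d * h : ℕ) * (r p).1 / ((p.1 : ℝ) ^ 3 * p.2))
          ((d * h : ℕ) * (r p).2.1 / ((p.1 : ℝ) ^ 3 * p.2))
          ((d * h : ℕ) * (r p).2.2 / ((p.1 : ℝ) ^ 3 * p.2)) with hS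
    set Fb := (dualSet N K y P).filter (fun t => (t.1, t.2.1) = (h, p)) with hFb
    have hsub : S ⊆ insert ((0 : ℤ), (0 : ℤ)) (Fb.image (fun t =>
        (F2 t.2.2.2.1 t.2.2.2.2.1 t.2.2.2.2.2 p.1 p.2 / (5 * (d * h : ℕ)),
          F1 t.2.2.1 t.2.2.2.1 t.2.2.2.2.1 p.1 p.2 / (5 * (d * h : ℕ))))) := by
      rintro ⟨u, v⟩ huv
      by_cases h0 : u = 0 ∧ v = 0
      · rw [h0.1, h0.2]
        exact Finset.mem_insert_self _ _
      apply Finset.mem_insert_of_mem
      rw [hS] at huv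
      unfold nearPts at huv
      rw [Finset.mem_filter, Finset.mem_product, Finset.mem_Icc, Finset.mem_Icc] at huv
      obtain ⟨⟨⟨b1, b2⟩, b3, b4⟩, b5, b6⟩ := huv
      simp only at b1 b2 b3 b4 b5 b6
      have hdh : 1 ≤ d * h := Nat.one_le_iff_ne_zero.mpr (Nat.mul_ne_zero (by omega) (by omega))
      obtain ⟨A, A', B, X, c1, c2, c3, c4, c5, c6⟩ := dual_map Q N K M G p.1 p.2 (d * h) a1 a2 a5 a3 a4 a6 hKN hMG
        hM hMQ a7 hdh hh2 (r p).1 (r p).2.1 (r p).2.2 (hr p a1 a3 a7) u v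
        (abs_le.mpr ⟨by linarith, by linarith⟩) (abs_le.mpr ⟨by linarith, by linarith⟩) b5 b6
      have hne : (5 * ((d * h : ℕ) : ℤ)) ≠ 0 := by
        have : ((d * h : ℕ) : ℤ) ≠ 0 := by exact_mod_cast (by omega : d * h ≠ 0)
        omega
      rw [Finset.mem_image]
      refine ⟨(h, p, (A, A', B, X)), ?_, ?_⟩
      · rw [hFb, Finset.mem_filter]
        refine ⟨?_, rfl⟩
        unfold dualSet
        rw [Finset.mem_filter]
        refine ⟨?_, hp2, ?_, ?_, ?_⟩
        · rw [Finset.mem_product, Finset.mem_product]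
          refine ⟨hh1, hp1, ?_⟩
          unfold vbox
          simp only [Finset.mem_product, Finset.mem_Icc]
          exact ⟨abs_le.mp c1, abs_le.mp c2, abs_le.mp c3, abs_le.mp c4⟩
        · refine ⟨5 * d * v, ?_⟩
          simp only
          rw [← c5]
          push_cast
          ring
        · refine ⟨5 * d * u, ?_⟩
          simp only
          rw [← c6]
          push_cast
          ring
        · simp only
          rw [← c5, ← c6]
          by_contra hcon
          push Not at hcon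
          apply h0
          constructor
          · exact (mul_eq_zero.mp hcon.2).resolve_left hne
          · exact (mul_eq_zero.mp hcon.1).resolve_left hne
      · simp only
        rw [← c5, ← c6, Int.mul_ediv_cancel_left _ hne, Int.mul_ediv_cancel_left _ hne]
    calc S.card ≤ _ := Finset.card_le_card hsub
      _ ≤ _ := Finset.card_insert_le _ _
      _ ≤ Fb.card + 1 := Nat.add_le_add_right Finset.card_image_le 1
      _ = _ := add_comm _ _
  calc _ ≤ ∑ h ∈ (Ico P (2 * P)).filter (fun h => 128 * Q * (d * h) ≤ N ^ 3 * K),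
      ∑ p ∈ (pairs N K y).filter (fun p => Nat.Coprime h (5 * (p.1 * p.2))),
        (1 + ((dualSet N K y P).filter (fun t => (t.1, t.2.1) = (h, p))).card) :=
        Finset.sum_le_sum (fun h hh => Finset.sum_le_sum (fun p hp => key h hh p hp))
    _ ≤ ∑ h ∈ (Ico P (2 * P)).filter (fun h => 128 * Q * (d * h) ≤ N ^ 3 * K),
      ∑ p ∈ pairs N K y, (1 + ((dualSet N K y P).filter (fun t => (t.1, t.2.1) = (h, p))).card) :=
        Finset.sum_le_sum (fun h hh => Finset.sum_le_sum_of_subset (Finset.filter_subset _ _))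
    _ ≤ ∑ h ∈ Ico P (2 * P),
      ∑ p ∈ pairs N K y, (1 + ((dualSet N K y P).filter (fun t => (t.1, t.2.1) = (h, p))).card) :=
        Finset.sum_le_sum_of_subset (Finset.filter_subset _ _)
    _ = ∑ x ∈ Ico P (2 * P) ×ˢ pairs N K y,
          (1 + ((dualSet N K y P).filter (fun t => (t.1, t.2.1) = x)).card) := by
        rw [Finset.sum_product]
    _ = P * (pairs N K y).card + (dualSet N K y P).card := by
        rw [Finset.sum_add_distrib]
        congr 1
        · rw [Finset.sum_const, Finset.card_product, Nat.card_Ico]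
          simp only [smul_eq_mul, mul_one]
          congr 1
          omega
        · symm
          apply Finset.card_eq_sum_card_fiberwise
          intro t ht
          have ht' : t ∈ dualSet N K y P := ht
          unfold dualSet at ht'
          have := (Finset.mem_filter.mp ht').1
          rw [Finset.mem_product, Finset.mem_product] at this
          exact Finset.mem_coe.mpr (Finset.mem_product.mpr ⟨this.1, this.2.1⟩)

end Pool.Agent.helper3.FT
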